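import Pool.Agent.H71.AL.Targets

/-!
# The words in the maps of an order form a group
-/

set_option autoImplicit false

open Set
open Pool.Agent.AL

namespace Pool.Agent.H60.ALV

section

variable {L : Type} {l : L → L → Prop}

theorem wd_append (f : ℕ → L → L) (v w : List ℕ) (x : L) :
    wd f (v ++ w) x = wd f v (wd f w x) := by
  induction v with
  | nil => rfl
  | cons k v ih =>
    show f k (wd f (v ++ w) x) = f k (wd f v (wd f w x))
    rw [ih]

theorem inc_or_dec_inv (h1 : ∀ a, ¬ l a a) (h2 : ∀ a b, a ≠ b → l a b ∨ l b a)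
    (h3 : ∀ a b c, l a b → l b c → l a c) {f g : L → L} (hfg : ∀ x, f (g x) = x)
    (hf : Inc l f ∨ Dec l f) : Inc l g ∨ Dec l g := by
  have hne : ∀ x z, l x z → g x ≠ g z := by
    intro x z hxz he
    have h4 : x = z := by rw [← hfg x, ← hfg z, he]
    subst h4
    exact h1 x hxz
  rcases hf with hf | hf
  · left
    intro x z hxz
    rcases h2 _ _ (hne x z hxz) with h4 | h4
    · exact h4
    · exfalso
      have h5 := hf _ _ h4
      rw [hfg, hfg] at h5
      exact h1 x (h3 _ _ _ hxz h5)
  · right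
    intro x z hxz
    rcases h2 _ _ (hne x z hxz) with h4 | h4
    · exfalso
      have h5 := hf _ _ h4
      rw [hfg, hfg] at h5
      exact h1 x (h3 _ _ _ hxz h5)
    · exact h4

theorem comp_mono {f g : L → L} (hf : Inc l f ∨ Dec l f) (hg : Inc l g ∨ Dec l g) :
    Inc l (fun x => f (g x)) ∨ Dec l (fun x => f (g x)) := by
  rcases hf with hf | hf <;> rcases hg with hg | hg
  · exact Or.inl fun x z h => hf _ _ (hg _ _ h)
  · exact Or.inr fun x z h => hf _ _ (hg _ _ h)
  · exact Or.inr fun x z h => hf _ _ (hg _ _ h)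
  · exact Or.inl fun x z h => hf _ _ (hg _ _ h)

theorem gp_of (f : ℕ → L → L) (hinv : ∀ k, ∃ j, (∀ x, f j (f k x) = x) ∧ ∀ x, f k (f j x) = x)
    (hmono : ∀ k, Inc l (f k) ∨ Dec l (f k)) : Gp l (wd f) where
  one := ⟨[], fun _ => rfl⟩
  mul := fun v w => ⟨v ++ w, fun x => wd_append f v w x⟩
  inv := by
    intro w
    induction w with
    | nil => exact ⟨[], fun _ => rfl, fun _ => rfl⟩
    | cons k w ih =>
      obtain ⟨j, h1, h2⟩ := ih
      obtain ⟨k', h3, h4⟩ := hinv k
      refine ⟨j ++ [k'], fun x => ?_, fun x => ?_⟩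
      · rw [wd_append]
        show wd f j (f k' (f k (wd f w x))) = x
        rw [h3, h1]
      · rw [wd_append]
        show f k (wd f w (wd f j (f k' x))) = x
        rw [h2, h4]
  mono := by
    intro w
    induction w with
    | nil => exact Or.inl fun _ _ h => h
    | cons k w ih =>
      have h := comp_mono (hmono k) ih
      exact h

end

theorem pf_GPY : T_GPY := by
  intro y hy
  apply gp_of
  · intro k
    rcases Nat.even_or_odd' k with ⟨m, rfl | rfl⟩
    · exact ⟨2 * m + 1, fun x => (hy.inv m x).1, fun x => (hy.inv m x).2⟩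
    · exact ⟨2 * m, fun x => (hy.inv m x).2, fun x => (hy.inv m x).1⟩
  · intro k
    rcases Nat.even_or_odd' k with ⟨m, rfl | rfl⟩
    · exact hy.mono m
    · exact inc_or_dec_inv hy.ln.1 hy.ln.2.1 hy.ln.2.2 (fun x => (hy.inv m x).2) (hy.mono m)

end Pool.Agent.H60.ALV
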